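import Mathlib
import Pool.Agent.H75.Dip.Main

set_option autoImplicit false

open Set
open scoped ComplexOrder
open Pool.Agent.H314.Flow Pool.Agent.H75.Dip

namespace Pool.Agent.Results.MP_5fa4f2_an.NoControl

/-- There are a compact connected Kähler surface `(X, κ)`, a closed semipositive big form `θ`, a
nonempty closed set `E` and a continuous `g : X → [0, 1]` with `g = 0` on `E` such that the
comparison principle fails for all data over `θ`: for all finite `T > 0`, `B ≥ 0`, every continuous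
family of closed forms `θ ≤ ω_t ≤ e^B θ`, every `F` (continuous, non-decreasing in `r`,
`F(t, x, 0) ≥ -B`, `F(t, x, 1) ≤ B`) and every volume form `μ = m κ²`, `e^(-B) ≤ m ≤ e^B`, the data
are admissible, `u = g - (3 + 2 B) t` is a continuous subsolution and

* for all `C ≥ 0` and `δ > 0` there is a supersolution `v` with `u + C ≤ v` at time `0` and
  `v + C ≤ u` at all points of `E` and all times in `[δ, T[`;
* for every bounded continuous `c` on `[0, T[` there is a supersolution `v` with `u + c(0) ≤ v` at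
  time `0` and `v(t, x) = c(t)` for all `x` in `E`.

Sub- and supersolutions are those with touching test functions (`IsSub`, `IsSuper`); if `F` does not
depend on `r` they are also sub- and supersolutions in the sense of `IsSubsolution`,
`IsSupersolution` (the wording of the problem, test functions need not touch). -/
theorem result :
    ∃ (X : Type) (_ : TopologicalSpace X) (_ : CompactSpace X) (_ : T2Space X)
      (_ : ConnectedSpace X) (A : HolAtlas X 2) (κ θ : ClosedForm A) (E : Set X) (g : X → ℝ),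
      IsClosed E ∧ E.Nonempty ∧ Continuous g ∧ (∀ x, 0 ≤ g x ∧ g x ≤ 1) ∧ (∀ x ∈ E, g x = 0) ∧
      ∀ (T B : ℝ) (om : ℝ → ClosedForm A) (F : ℝ → X → ℝ → ℝ) (m : ℝ → X → ℝ),
        0 < T → 0 ≤ B →
        (∀ t ∈ Ico 0 T, ∀ i, ∀ z ∈ (A.chart i).target,
          ((om t).mat i z - θ.mat i z).PosSemidef ∧
          (((Real.exp B : ℝ) : ℂ) • θ.mat i z - (om t).mat i z).PosSemidef) →
        (∀ i, ContinuousOn (fun p : ℝ × Cn 2 => (om p.1).mat i p.2)
          (Ico 0 T ×ˢ (A.chart i).target)) →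
        ContinuousOn (fun p : ℝ × X × ℝ => F p.1 p.2.1 p.2.2) (Ico 0 T ×ˢ univ) →
        (∀ t ∈ Ico 0 T, ∀ x, Monotone (F t x) ∧ -B ≤ F t x 0 ∧ F t x 1 ≤ B) →
        ContinuousOn (fun p : ℝ × X => m p.1 p.2) (Ico 0 T ×ˢ univ) →
        (∀ t ∈ Ico 0 T, ∀ x, Real.exp (-B) ≤ m t x ∧ m t x ≤ Real.exp B) →
        ∀ D : FlowData A, D = ⟨T, κ, θ, om, F, m⟩ →
        ∀ u : ℝ → X → ℝ, u = (fun t x => g x - (3 + 2 * B) * t) →
          D.Admissible ∧ IsSub D u ∧
          (∀ C δ : ℝ, 0 ≤ C → 0 < δ → ∃ v : ℝ → X → ℝ, IsSuper D v ∧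
            (∀ x, u 0 x + C ≤ v 0 x) ∧ (∀ t ∈ Ico δ T, ∀ x ∈ E, v t x + C ≤ u t x) ∧
            ((∀ t x r s, F t x r = F t x s) → IsSubsolution D u ∧ IsSupersolution D v)) ∧
          (∀ c : ℝ → ℝ, ContinuousOn c (Ico 0 T) → (∃ C₀ : ℝ, ∀ t ∈ Ico 0 T, |c t| ≤ C₀) →
            ∃ v : ℝ → X → ℝ, IsSuper D v ∧
              (∀ x, u 0 x + c 0 ≤ v 0 x) ∧ (∀ t ∈ Ico 0 T, ∀ x ∈ E, v t x = c t) ∧
              ((∀ t x r s, F t x r = F t x s) → IsSubsolution D u ∧ IsSupersolution D v)) := by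
  refine ⟨S, inferInstance, inferInstance, inferInstance, inferInstance, atlasS, kappaS, thetaS,
    {x : S | x.1.1 0 0 = 1}, gS, E_closed, ⟨ptE, ptE_mem⟩, gS_continuous,
    fun x => ⟨gS_nonneg x, gS_le x⟩, fun x hx => gS_of_mem hx, ?_⟩
  intro T B om F m hT hB hO hOc hF hFm hm hmB D hD u hu
  have hD' : D = dat T om F m := hD
  have hu' : u = uG (3 + 2 * B) := hu
  subst hD' hu'
  obtain ⟨⟨hsub, hsub'⟩, hsup⟩ := main (T := T) hB hO hFm hmB
  have h0 : (0:ℝ) ∈ Ico 0 T := ⟨le_rfl, hT⟩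
  have key : ∀ c : ℝ → ℝ, ContinuousOn c (Ico 0 T) → (∃ C₀ : ℝ, ∀ t ∈ Ico 0 T, |c t| ≤ C₀) →
      ∃ v : ℝ → S → ℝ, IsSuper (dat T om F m) v ∧
        (∀ x, uG (3 + 2 * B) 0 x + c 0 ≤ v 0 x) ∧
        (∀ t ∈ Ico 0 T, ∀ x ∈ {x : S | x.1.1 0 0 = 1}, v t x = c t) ∧
        ((∀ t x r s, F t x r = F t x s) → IsSubsolution (dat T om F m) (uG (3 + 2 * B)) ∧
          IsSupersolution (dat T om F m) v) := by
    rintro c hcc ⟨C₀, hC₀⟩
    have hC00 : 0 ≤ C₀ := (abs_nonneg _).trans (hC₀ 0 h0)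
    obtain ⟨h1, h2⟩ := hsup c C₀ (C₀ + 1) hcc hC₀ hC00 (by linarith)
    refine ⟨_, h1, fun x => ?_, fun t ht x hx => ?_, fun hFr => ⟨hsub' hFr, h2 hFr⟩⟩
    · unfold uG vG
      split_ifs with h
      · rw [gS_of_mem h]; simp
      · have h3 := gS_le x
        have h4 := (le_abs_self _).trans (hC₀ 0 h0)
        linarith
    · unfold vG
      exact if_pos hx
  refine ⟨dat_admissible hT (fun t ht i z hz => (hO t ht i z hz).1) hOc hF
    (fun t ht x => (hFm t ht x).1) hm hmB, hsub, ?_, key⟩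
  intro C δ hC hδ
  have hk0 : 0 ≤ (3 + 2 * B) + 2 * C / δ := by positivity
  obtain ⟨v, hv, hv0, hvE, hvl⟩ := key (fun t => C - ((3 + 2 * B) + 2 * C / δ) * t)
    (by fun_prop) ⟨C + ((3 + 2 * B) + 2 * C / δ) * T, fun t ht => by
      have h1 : ((3 + 2 * B) + 2 * C / δ) * t ≤ ((3 + 2 * B) + 2 * C / δ) * T :=
        mul_le_mul_of_nonneg_left ht.2.le hk0
      have h2 : 0 ≤ ((3 + 2 * B) + 2 * C / δ) * t := mul_nonneg hk0 ht.1
      rw [abs_le]
      constructor <;> linarith⟩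
  refine ⟨v, hv, fun x => ?_, fun t ht x hx => ?_, hvl⟩
  · have := hv0 x
    simpa using this
  · have ht' : t ∈ Ico 0 T := ⟨hδ.le.trans ht.1, ht.2⟩
    rw [hvE t ht' x hx]
    unfold uG
    rw [gS_of_mem hx]
    have h1 : 2 * C ≤ 2 * C / δ * t := by
      have h2 : 2 * C / δ * δ ≤ 2 * C / δ * t := mul_le_mul_of_nonneg_left ht.1 (by positivity)
      rwa [div_mul_cancel₀ _ hδ.ne'] at h2
    nlinarith

end Pool.Agent.Results.MP_5fa4f2_an.NoControl
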